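import Pool.Agent.Q301.BM.Fin

/-!
# A product of two `P`-spaces need not be a `P`-space in ZF

If there is a model of ZF, then there is a model of ZF with two `P`-spaces `x` and `x'` whose
product is not a `P`-space.

In a symmetric extension there is a sequence of linear orders `T_n` without endpoints that are very
homogeneous. The spaces are `x = {∞} ∪ ⋃ T_n`, where the points of the `T_n` are isolated and a
neighbourhood of `∞` contains almost all `T_n` and a final segment of each `T_n`, and the same space
with initial segments. The sets `{(a, b) : ¬ (a, b ∈ T_n and a ≤ b)}` are open neighbourhoods of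
`(∞, ∞)`, and their intersection is not a neighbourhood of `(∞, ∞)`.
-/

namespace Pool.Agent.Results.MP_e864e9_lc.ProductNotPSpace

open FirstOrder FirstOrder.Language
open Pool.Agent.Helper672.Plain (LSet)
open Pool.Agent.H635Amen (ZF)
open Pool.Agent.H310Top (IsTopology)
open Pool.Agent.H310Cards (IsProd)
open Pool.Agent.Q301.BM

universe u

theorem result (h : ∃ (M : Type u) (_ : LSet.Structure M), ZF M) :
    ∃ (N : Type u) (_ : LSet.Structure N), ZF N ∧
      ∃ t x t' x' s z : N, IsTopology t x ∧ IsPSpace t x ∧ IsTopology t' x' ∧ IsPSpace t' x' ∧
        IsProd z x x' ∧ IsTopology s z ∧ IsProdTopology s z t t' ∧ ¬ IsPSpace s z := by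
  exact Pool.Agent.Q301.BM.pe864e9 h

end Pool.Agent.Results.MP_e864e9_lc.ProductNotPSpace
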